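import Pool.Agent.H74R2.WT.Stmts

/-!
# Additivity of the generalised area
-/

set_option autoImplicit false

open MeasureTheory Set

namespace H74R2.WT

noncomputable section

theorem E4_cont (y : ℝ) : Continuous (fun x : ℝ => (⟨x, y⟩ : ℂ)) := by
  have h : (fun x : ℝ => (⟨x, y⟩ : ℂ)) = fun x : ℝ => (x : ℂ) + (y : ℂ) * Complex.I := by
    funext x
    apply Complex.ext <;> simp
  rw [h]
  fun_prop

theorem E4_slice (K : Subfield ℝ) (G : Set ℂ) (hG : Gd K G) :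
    ∀ᵐ y : ℝ, MeasurableSet {x : ℝ | (⟨x, y⟩ : ℂ) ∈ G} ∧
      volume {x : ℝ | (⟨x, y⟩ : ℂ) ∈ G} ≠ ⊤ := by
  obtain ⟨L, hL, hfr⟩ := hG.lines
  obtain ⟨R, hR⟩ := hG.bdd.subset_closedBall (0 : ℂ)
  have hY : ((L.image (fun q => q.2.2 / q.2.1) : Finset ℝ) : Set ℝ).Countable :=
    (Finset.finite_toSet _).countable
  filter_upwards [hY.ae_notMem volume] with y hy
  constructor
  · have hfin : {x : ℝ | (⟨x, y⟩ : ℂ) ∈ frontier G}.Finite := by
      apply (Finset.finite_toSet (L.image (fun q => (q.2.2 - q.2.1 * y) / q.1))).subset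
      intro x hx
      obtain ⟨q, hq, hqe⟩ := hfr hx
      have hqe' : q.1 * x + q.2.1 * y = q.2.2 := hqe
      rw [Finset.mem_coe, Finset.mem_image]
      refine ⟨q, hq, ?_⟩
      have ha : q.1 ≠ 0 := by
        intro h0
        have hb : q.2.1 ≠ 0 := by
          rcases (hL q hq).2.2 with h | h
          · exact absurd h0 h
          · exact h
        apply hy
        rw [Finset.mem_coe, Finset.mem_image]
        refine ⟨q, hq, ?_⟩
        rw [h0, zero_mul, zero_add] at hqe'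
        rw [← hqe', mul_div_cancel_left₀ _ hb]
      rw [div_eq_iff ha]
      linarith
    have hset : {x : ℝ | (⟨x, y⟩ : ℂ) ∈ G} = {x : ℝ | (⟨x, y⟩ : ℂ) ∈ interior G} ∪
        ({x : ℝ | (⟨x, y⟩ : ℂ) ∈ G} ∩ {x : ℝ | (⟨x, y⟩ : ℂ) ∈ frontier G}) := by
      ext x
      constructor
      · intro hx
        by_cases hi : (⟨x, y⟩ : ℂ) ∈ interior G
        · exact Or.inl hi
        · exact Or.inr ⟨hx, subset_closure hx, hi⟩
      · rintro (hx | hx)
        · exact (interior_subset : interior G ⊆ G) hx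
        · exact hx.1
    rw [hset]
    apply MeasurableSet.union
    · exact (isOpen_interior.preimage (E4_cont y)).measurableSet
    · exact (hfin.subset inter_subset_right).measurableSet
  · have hsub : {x : ℝ | (⟨x, y⟩ : ℂ) ∈ G} ⊆ Icc (-R) R := by
      intro x hx
      have h1 := hR hx
      rw [mem_closedBall_zero_iff] at h1
      have h2 : |x| ≤ R := (Complex.abs_re_le_norm (⟨x, y⟩ : ℂ)).trans h1
      exact ⟨(abs_le.1 h2).1, (abs_le.1 h2).2⟩
    have h3 : volume {x : ℝ | (⟨x, y⟩ : ℂ) ∈ G} ≤ volume (Icc (-R) R) := measure_mono hsub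
    have h4 : volume (Icc (-R) R) < ⊤ := by
      rw [Real.volume_Icc]
      exact ENNReal.ofReal_lt_top
    exact (h3.trans_lt h4).ne

theorem E4_ind (G : Set ℂ) (y : ℝ) : (fun x : ℝ => ind G ⟨x, y⟩) =
    Set.indicator {x : ℝ | (⟨x, y⟩ : ℂ) ∈ G} (fun _ => (1 : ℝ)) := by
  funext x
  unfold ind Set.indicator
  rfl

theorem E4_int (G : Set ℂ) (y : ℝ) (h1 : MeasurableSet {x : ℝ | (⟨x, y⟩ : ℂ) ∈ G})
    (h2 : volume {x : ℝ | (⟨x, y⟩ : ℂ) ∈ G} ≠ ⊤) :
    Integrable (fun x : ℝ => ind G ⟨x, y⟩) ∧ ∫ x : ℝ, ind G ⟨x, y⟩ = hs G y := by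
  rw [E4_ind]
  constructor
  · exact (integrable_indicator_iff h1).2 (integrableOn_const h2)
  · rw [integral_indicator h1, setIntegral_const, smul_eq_mul, mul_one]
    rfl

theorem E4_sum (y : ℝ) : ∀ W : List (ℤ × Set ℂ),
    (∀ q ∈ W, MeasurableSet {x : ℝ | (⟨x, y⟩ : ℂ) ∈ q.2} ∧
      volume {x : ℝ | (⟨x, y⟩ : ℂ) ∈ q.2} ≠ ⊤) →
    Integrable (fun x : ℝ => (W.map (fun q => (q.1 : ℝ) * ind q.2 ⟨x, y⟩)).sum) ∧
      ∫ x : ℝ, (W.map (fun q => (q.1 : ℝ) * ind q.2 ⟨x, y⟩)).sum =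
        (W.map (fun q => (q.1 : ℝ) * hs q.2 y)).sum := by
  intro W
  induction W with
  | nil =>
    intro _
    simp
  | cons q W ih =>
    intro h
    obtain ⟨i1, i2⟩ := ih (fun q hq => h q (List.mem_cons_of_mem _ hq))
    obtain ⟨j1, j2⟩ := E4_int q.2 y (h q List.mem_cons_self).1 (h q List.mem_cons_self).2
    simp only [List.map_cons, List.sum_cons]
    refine ⟨(j1.const_mul _).add i1, ?_⟩
    rw [integral_add (j1.const_mul _) i1, i2, integral_const_mul, j2]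

theorem E4_fub (p : ℂ → Prop) (h : ∀ᵐ z : ℂ, p z) : ∀ᵐ y : ℝ, ∀ᵐ x : ℝ, p ⟨x, y⟩ := by
  have h1 : ∀ᵐ w : ℝ × ℝ, p (Complex.measurableEquivRealProd.symm w) :=
    (Complex.volume_preserving_equiv_real_prod.symm).quasiMeasurePreserving.ae h
  have h2 : ∀ᵐ w : ℝ × ℝ, p (Complex.measurableEquivRealProd.symm w.swap) :=
    (Measure.measurePreserving_swap (μ := (volume : Measure ℝ))
      (ν := (volume : Measure ℝ))).quasiMeasurePreserving.ae h1
  have h3 := Measure.ae_ae_of_ae_prod h2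
  exact h3

theorem E4_list (W : List (ℤ × Set ℂ)) (K : Subfield ℝ)
    (l : Set ℂ → List (Piece K)) (F : Piece K → ℝ) :
    ((W.flatMap (fun q => (l q.2).map (fun p => (q.1, p)))).map
      (fun q => (q.1 : ℝ) * F q.2)).sum =
    (W.map (fun q => (q.1 : ℝ) * ((l q.2).map F).sum)).sum := by
  induction W with
  | nil => simp
  | cons q W ih =>
    rw [List.flatMap_cons, List.map_append, List.sum_append, ih, List.map_cons, List.sum_cons]
    congr 1
    rw [List.map_map, ← List.sum_map_mul_left]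
    rfl

theorem t_E4 : T_E4 := by
  intro hrep hAr hC K σ φ hφ W hW hae
  classical
  -- lists of pieces
  obtain ⟨l, hl⟩ : ∃ l : Set ℂ → List (Piece K), ∀ G, Gd K G → RepOf K G (l G) := by
    refine ⟨fun G => if h : ∃ l : List (Piece K), RepOf K G l then h.choose else [], ?_⟩
    intro G hG
    have h := hrep K G hG
    show RepOf K G (if h : ∃ l : List (Piece K), RepOf K G l then h.choose else [])
    rw [dif_pos h]
    exact h.choose_spec
  have h1 := E4_fub (fun z => (W.map (fun q => (q.1 : ℝ) * ind q.2 z)).sum = 0) hae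
  have h2 : ∀ᵐ y : ℝ, ∀ q ∈ W, MeasurableSet {x : ℝ | (⟨x, y⟩ : ℂ) ∈ q.2} ∧
      volume {x : ℝ | (⟨x, y⟩ : ℂ) ∈ q.2} ≠ ⊤ := by
    have h3 : ∀ᵐ y : ℝ, ∀ q : {q // q ∈ W.toFinset}, MeasurableSet {x : ℝ | (⟨x, y⟩ : ℂ) ∈ q.1.2} ∧
        volume {x : ℝ | (⟨x, y⟩ : ℂ) ∈ q.1.2} ≠ ⊤ :=
      ae_all_iff.2 (fun q => E4_slice K q.1.2 (hW q.1 (List.mem_toFinset.1 q.2)))
    filter_upwards [h3] with y hy q hq
    exact hy ⟨q, List.mem_toFinset.2 hq⟩
  have h4 : ∀ᵐ y : ℝ, ∀ q ∈ W, hs q.2 y = ((l q.2).map (fun p => p.f y)).sum := by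
    have h3 : ∀ᵐ y : ℝ, ∀ q : {q // q ∈ W.toFinset},
        hs q.1.2 y = ((l q.1.2).map (fun p => p.f y)).sum :=
      ae_all_iff.2 (fun q => hl q.1.2 (hW q.1 (List.mem_toFinset.1 q.2)))
    filter_upwards [h3] with y hy q hq
    exact hy ⟨q, List.mem_toFinset.2 hq⟩
  have h5 : ∀ᵐ y : ℝ, ((W.flatMap (fun q => (l q.2).map (fun p => (q.1, p)))).map
      (fun q => (q.1 : ℝ) * q.2.f y)).sum = 0 := by
    filter_upwards [h1, h2, h4] with y y1 y2 y4
    rw [E4_list W K l (fun p => p.f y)]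
    have e1 : (W.map (fun q => (q.1 : ℝ) * ((l q.2).map (fun p => p.f y)).sum)) =
        W.map (fun q => (q.1 : ℝ) * hs q.2 y) := by
      apply List.map_congr_left
      intro q hq
      rw [y4 q hq]
    rw [e1, ← (E4_sum y W y2).2, integral_congr_ae y1]
    simp
  have h6 := hC K σ φ hφ _ h5
  rw [E4_list W K l (fun p => p.J σ φ)] at h6
  rw [← h6]
  congr 1
  apply List.map_congr_left
  intro q hq
  rw [hAr K σ φ hφ q.2 (l q.2) (hl q.2 (hW q hq))]

end

end H74R2.WT
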